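import Pool.Agent.Helper83.Res.TheoremX

/-!
# Project RES (MP_d365ae_co): the averaging induction

`Good F M k`: `|F| ≤ N(k)` and `|F| - A₁(M) ≤ N(k) - 10 k`, with `N(k) = C(3k+2,3)` and `A₁(M)` the
number of edges of `F` meeting exactly one block of `M`.

`good_step`: if `Good (F - e) (M - e) k` for every block `e` of the matching `M`, then
`Good F M (k+1)`.
-/

namespace Res46

open Finset Res12

set_option linter.unusedSectionVars false

variable {V : Type} [Fintype V] [DecidableEq V]

/-- the number of edges of `F` meeting exactly `i` blocks of `M` -/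
def lev (F M : Finset (Finset V)) (i : ℕ) : ℕ := (F.filter (fun g => (bl M g).card = i)).card

/-- The statement carried along by the induction. -/
def Good (F M : Finset (Finset V)) (k : ℕ) : Prop :=
  F.card ≤ (3 * k + 2).choose 3 ∧ F.card + 10 * k ≤ (3 * k + 2).choose 3 + lev F M 1

theorem lev_three_le {F M : Finset (Finset V)} (h3 : ∀ e ∈ F, e.card = 3) (hM : M ⊆ F)
    (hm : IsMatching M) : lev F M 3 ≤ 27 * M.card.choose 3 := by
  classical
  have h1 := Res83.sum_three_le h3 hM hm
  refine le_trans (le_of_eq ?_) h1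
  unfold lev Res83.A
  have hsub : ∀ g ∈ F.filter (fun g => (bl M g).card = 3), bl M g ∈ M.powersetCard 3 := by
    intro g hg
    rw [mem_powersetCard]
    exact ⟨bl_subset M g, (mem_filter.1 hg).2⟩
  rw [Finset.card_eq_sum_card_fiberwise hsub]
  refine Finset.sum_congr rfl fun S hS => ?_
  congr 1
  ext g
  rw [mem_filter, mem_filter, mem_filter]
  constructor
  · rintro ⟨⟨h1, -⟩, h2⟩
    exact ⟨h1, h2⟩
  · rintro ⟨h1, h2⟩
    refine ⟨⟨h1, ?_⟩, h2⟩
    rw [h2]
    exact (mem_powersetCard.1 hS).2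

/-- `|F| = A₁ + A₂ + A₃` and the weighted version. -/
theorem card_lev {F M : Finset (Finset V)} (h3 : ∀ e ∈ F, e.card = 3)
    (hm : IsMatching M) (hcov : ∀ g ∈ F, (bl M g).Nonempty) :
    F.card = lev F M 1 + lev F M 2 + lev F M 3 ∧
      ∑ g ∈ F, (bl M g).card = lev F M 1 + 2 * lev F M 2 + 3 * lev F M 3 := by
  classical
  have hmaps : ∀ g ∈ F, (bl M g).card ∈ ({1, 2, 3} : Finset ℕ) := by
    intro g hg
    have h1 := card_bl_le hm (g := g)
    rw [h3 g hg] at h1
    have h2 : 0 < (bl M g).card := Finset.card_pos.2 (hcov g hg)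
    simp only [mem_insert, mem_singleton]
    omega
  constructor
  · rw [Finset.card_eq_sum_card_fiberwise (f := fun g => (bl M g).card)
      (t := ({1, 2, 3} : Finset ℕ)) (fun g hg => by simpa using hmaps g hg)]
    simp [lev, add_assoc]
  · rw [← Finset.sum_fiberwise_of_maps_to (t := ({1, 2, 3} : Finset ℕ)) hmaps]
    have h4 : ∀ i ∈ ({1, 2, 3} : Finset ℕ),
        ∑ g ∈ F.filter (fun g => (bl M g).card = i), (bl M g).card = i * lev F M i := by
      intro i _
      rw [Finset.sum_congr rfl (fun g hg => (mem_filter.1 hg).2)]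
      rw [Finset.sum_const, smul_eq_mul, mul_comm]
      rfl
    rw [Finset.sum_congr rfl h4]
    simp [add_assoc]

theorem card_av_add {F M : Finset (Finset V)} :
    ∑ e ∈ M, (av F e).card + ∑ g ∈ F, (bl M g).card = M.card * F.card := by
  classical
  have h1 : ∑ e ∈ M, (av F e).card = ∑ g ∈ F, (M.filter (fun e => Disjoint g e)).card := by
    unfold av
    simp only [Finset.card_filter]
    rw [Finset.sum_comm]
  rw [h1, ← Finset.sum_add_distrib]
  have h2 : ∀ g ∈ F, (M.filter (fun e => Disjoint g e)).card + (bl M g).card = M.card := by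
    intro g _
    have h3 : bl M g = M.filter (fun e => ¬ Disjoint g e) := by
      unfold bl
      ext e
      rw [mem_filter, mem_filter, disjoint_comm]
    rw [h3]
    exact Finset.card_filter_add_card_filter_not _
  rw [Finset.sum_congr rfl h2, Finset.sum_const, smul_eq_mul, mul_comm]

theorem bl_erase {M : Finset (Finset V)} {e g : Finset V} (h : Disjoint g e) :
    bl (M.erase e) g = bl M g := by
  ext b
  rw [mem_bl, mem_bl, mem_erase]
  constructor
  · rintro ⟨⟨_, h1⟩, h2⟩
    exact ⟨h1, h2⟩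
  · rintro ⟨h1, h2⟩
    refine ⟨⟨?_, h1⟩, h2⟩
    rintro rfl
    exact h2 h.symm

theorem sum_lev_one {F M : Finset (Finset V)} :
    ∑ e ∈ M, lev (av F e) (M.erase e) 1 + lev F M 1 = M.card * lev F M 1 := by
  classical
  set F1 := F.filter (fun g => (bl M g).card = 1) with hF1
  have h1 : ∀ e ∈ M, lev (av F e) (M.erase e) 1 = (av F1 e).card := by
    intro e _
    unfold lev
    congr 1
    ext g
    rw [mem_filter, mem_av, mem_av, hF1, mem_filter]
    constructor
    · rintro ⟨⟨h1, h2⟩, h3⟩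
      rw [bl_erase h2] at h3
      exact ⟨⟨h1, h3⟩, h2⟩
    · rintro ⟨⟨h1, h3⟩, h2⟩
      rw [bl_erase h2]
      exact ⟨⟨h1, h2⟩, h3⟩
  rw [Finset.sum_congr rfl h1]
  have h2 := card_av_add (F := F1) (M := M)
  have h3 : ∑ g ∈ F1, (bl M g).card = lev F M 1 := by
    rw [Finset.sum_congr rfl (fun g hg => (mem_filter.1 hg).2)]
    simp [lev]
  rw [h3] at h2
  exact h2

/-- Arithmetic of the induction step. -/
theorem arith (k A1 A2 A3 c2 c3 Nk : ℕ) (hk : 2 ≤ k)
    (hN : (k + 1) * Nk = 10 * k * (k + 1) + 36 * (k - 1) * c2 + 27 * (k - 2) * c3)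
    (h1 : k * A1 + (k - 1) * A2 + (k - 2) * A3 ≤ (k + 1) * Nk)
    (h2 : (k - 1) * A2 + (k - 2) * A3 + 10 * k * (k + 1) ≤ (k + 1) * Nk)
    (h3 : A3 ≤ 27 * c3) :
    A1 + A2 + A3 ≤ 10 * (k + 1) + 36 * c2 + 27 * c3 ∧ A2 + A3 ≤ 36 * c2 + 27 * c3 := by
  obtain ⟨j, rfl⟩ : ∃ j, k = j + 2 := ⟨k - 2, by omega⟩
  have e1 : j + 2 - 1 = j + 1 := by omega
  have e2 : j + 2 - 2 = j := by omega
  rw [e1, e2] at hN h1 h2
  rw [hN] at h1 h2
  have hII : A2 + A3 ≤ 36 * c2 + 27 * c3 := by
    have : (j + 1) * (A2 + A3) ≤ (j + 1) * (36 * c2 + 27 * c3) := by nlinarith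
    exact Nat.le_of_mul_le_mul_left this (by omega)
  refine ⟨?_, hII⟩
  rcases Nat.le_total A1 (10 * (j + 2 + 1)) with h | h
  · omega
  · have : (j + 1) * (A1 + A2 + A3) ≤ (j + 1) * (10 * (j + 2 + 1) + 36 * c2 + 27 * c3) := by
      nlinarith
    exact Nat.le_of_mul_le_mul_left this (by omega)

/-- **The averaging step.** -/
theorem good_step {F M : Finset (Finset V)} {k : ℕ} (hk : 2 ≤ k) (h3 : ∀ e ∈ F, e.card = 3)
    (hM : M ⊆ F) (hm : IsMatching M) (hc : M.card = k + 1)
    (hcov : ∀ g ∈ F, (bl M g).Nonempty) (ih : ∀ e ∈ M, Good (av F e) (M.erase e) k) :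
    Good F M (k + 1) := by
  classical
  obtain ⟨hF, hW⟩ := card_lev h3 hm hcov
  have hav := card_av_add (F := F) (M := M)
  have hone := sum_lev_one (F := F) (M := M)
  have hthree := lev_three_le h3 hM hm
  rw [hc] at hav hone hthree
  rw [hW] at hav
  have hN := Res83.num_id (k + 1)
  have hNk := Res83.num_id k
  set A1 := lev F M 1
  set A2 := lev F M 2
  set A3 := lev F M 3
  set c2 := (k + 1).choose 2
  set c3 := (k + 1).choose 3
  set Nk := (3 * k + 2).choose 3
  have hc2 : (k + 1) * k.choose 2 = (k - 1) * c2 := by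
    have := Nat.choose_mul_succ_eq k 2
    have e : k + 1 - 2 = k - 1 := by omega
    rw [e] at this
    rw [mul_comm (k + 1), this, mul_comm]
  have hc3 : (k + 1) * k.choose 3 = (k - 2) * c3 := by
    have := Nat.choose_mul_succ_eq k 3
    have e : k + 1 - 3 = k - 2 := by omega
    rw [e] at this
    rw [mul_comm (k + 1), this, mul_comm]
  have hNmul : (k + 1) * Nk = 10 * k * (k + 1) + 36 * (k - 1) * c2 + 27 * (k - 2) * c3 := by
    rw [← hNk]
    calc (k + 1) * (10 * k + 36 * k.choose 2 + 27 * k.choose 3)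
        = 10 * k * (k + 1) + 36 * ((k + 1) * k.choose 2) + 27 * ((k + 1) * k.choose 3) := by ring
      _ = _ := by rw [hc2, hc3]; ring
  have s1 : ∑ e ∈ M, (av F e).card ≤ (k + 1) * Nk := by
    refine (Finset.sum_le_card_nsmul _ _ Nk fun e he => (ih e he).1).trans ?_
    rw [hc, smul_eq_mul]
  have s2 : ∑ e ∈ M, (av F e).card + 10 * k * (k + 1) ≤
      (k + 1) * Nk + ∑ e ∈ M, lev (av F e) (M.erase e) 1 := by
    have h := Finset.sum_le_sum fun e he => (ih e he).2
    rw [Finset.sum_add_distrib, Finset.sum_add_distrib, Finset.sum_const, Finset.sum_const, hc,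
      smul_eq_mul, smul_eq_mul] at h
    calc ∑ e ∈ M, (av F e).card + 10 * k * (k + 1)
        = ∑ e ∈ M, (av F e).card + (k + 1) * (10 * k) := by ring
      _ ≤ _ := h
  have key := arith k A1 A2 A3 c2 c3 Nk hk hNmul (by
    obtain ⟨j, rfl⟩ : ∃ j, k = j + 2 := ⟨k - 2, by omega⟩
    have e1 : j + 2 - 1 = j + 1 := by omega
    have e2 : j + 2 - 2 = j := by omega
    rw [e1, e2]
    refine le_trans (le_of_eq ?_) s1
    rw [hF] at hav
    nlinarith) (by
    obtain ⟨j, rfl⟩ : ∃ j, k = j + 2 := ⟨k - 2, by omega⟩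
    have e1 : j + 2 - 1 = j + 1 := by omega
    have e2 : j + 2 - 2 = j := by omega
    rw [e1, e2]
    rw [hF] at hav
    nlinarith) hthree
  unfold Good
  rw [← hN]
  refine ⟨?_, ?_⟩
  · rw [hF]
    exact key.1
  · rw [hF]
    change A1 + A2 + A3 + 10 * (k + 1) ≤ 10 * (k + 1) + 36 * c2 + 27 * c3 + A1
    have := key.2
    omega

/-- The base case `k = 2`, from the theorem for `s = 2` and `b36r`. -/
theorem good_two (S2 : ∀ H : Finset (Finset V), Hyp H 2 → H.card ≤ 56)
    {F M : Finset (Finset V)} (h : Hyp F 2) (hM : M ⊆ F) (hm : IsMatching M) (hc : M.card = 2) :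
    Good F M 2 := by
  classical
  have h1 := S2 F h
  obtain ⟨e, f, hef, hMef⟩ := Finset.card_eq_two.1 hc
  have he : e ∈ F := hM (by rw [hMef]; simp)
  have hf : f ∈ F := hM (by rw [hMef]; simp)
  have hd : Disjoint e f := hm e (by rw [hMef]; simp) f (by rw [hMef]; simp) hef
  have h36 := b36r h he hf hd
  have hcov : ∀ g ∈ F, (bl M g).Nonempty := by
    intro g hg
    by_contra hcon
    rw [Finset.not_nonempty_iff_eq_empty] at hcon
    have h2 := h.meets hM hm hc hg
    apply h2
    have := disjoint_VS_sdiff (N := M) (S := ∅) (g := g) (by rw [hcon])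
    rwa [sdiff_empty] at this
  have h2 : F.card ≤ lev F M 1 + 36 := by
    have h3 : F.card = lev F M 1 + lev F M 2 + lev F M 3 := (card_lev h.three hm hcov).1
    have h4 : lev F M 3 = 0 := by
      have := lev_three_le h.three hM hm
      rw [hc] at this
      simpa using this
    have h5 : lev F M 2 ≤ 36 := by
      refine le_trans (card_le_card ?_) h36
      intro g hg
      rw [mem_filter] at hg ⊢
      have h6 : bl M g = M := Finset.eq_of_subset_of_card_le (bl_subset M g) (by rw [hc, hg.2])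
      have h7 : ∀ b ∈ M, ¬ Disjoint g b := by
        intro b hb
        rw [← h6] at hb
        intro hd
        exact (mem_bl.1 hb).2 hd.symm
      exact ⟨hg.1, h7 e (by rw [hMef]; simp), h7 f (by rw [hMef]; simp)⟩
    omega
  have e56 : (3 * 2 + 2).choose 3 = 56 := by decide
  unfold Good
  rw [e56]
  exact ⟨h1, by omega⟩

/-- `Good` for every 2-resilient family with matching number `k` and every maximum matching. -/
def Std (V : Type) [Fintype V] [DecidableEq V] (k : ℕ) : Prop :=
  ∀ F : Finset (Finset V), Hyp F k → ∀ M ⊆ F, IsMatching M → M.card = k → Good F M k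

theorem std_two (S2 : ∀ H : Finset (Finset V), Hyp H 2 → H.card ≤ 56) : Std V 2 :=
  fun _ h _ hM hm hc => good_two S2 h hM hm hc

/-- Every edge meets a block of a maximum matching. -/
theorem bl_nonempty {F M : Finset (Finset V)} {k : ℕ} (h : Hyp F k) (hM : M ⊆ F)
    (hm : IsMatching M) (hc : M.card = k) : ∀ g ∈ F, (bl M g).Nonempty := by
  intro g hg
  by_contra hcon
  rw [Finset.not_nonempty_iff_eq_empty] at hcon
  apply h.meets hM hm hc hg
  have := disjoint_VS_sdiff (N := M) (S := ∅) (g := g) (by rw [hcon])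
  rwa [sdiff_empty] at this

/-- Deleting an edge lowers the matching number. -/
theorem nu_av_edge_lt {F : Finset (Finset V)} {k : ℕ} (h : Hyp F (k + 1)) {e : Finset V}
    (he : e ∈ F) : nu (av F e) ≤ k := by
  classical
  obtain ⟨P, hP, hmP, hcP⟩ := exists_nu (av F e)
  have hd : Disjoint e (VS P) := by
    rw [Finset.disjoint_left]
    intro v hv hv'
    obtain ⟨g, hg, hvg⟩ := mem_VS.1 hv'
    exact Finset.disjoint_left.1 (mem_av.1 (hP hg)).2 hvg hv
  have hne : e.Nonempty := by
    rw [← Finset.card_pos, h.three e he]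
    norm_num
  have h1 := h.le (insert e P) (by
    intro f hf
    rw [mem_insert] at hf
    rcases hf with rfl | hf
    · exact he
    · exact av_subset _ _ (hP hf)) (hmP.insert hd)
  rw [Finset.card_insert_of_notMem (not_mem_of_disjoint_VS hne hd)] at h1
  omega

/-- Without a barrier `e ∪ {a, b}` the family `F - e` is 2-resilient. -/
theorem hyp_av_edge {F : Finset (Finset V)} {k : ℕ} (h : Hyp F (k + 1)) {e : Finset V}
    (he : e ∈ F) (hnb : ∀ a b : V, k ≤ nu (av F (e ∪ {a, b}))) : Hyp (av F e) k := by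
  have hle := nu_av_edge_lt h he
  obtain ⟨v, -⟩ : e.Nonempty := by
    rw [← Finset.card_pos, h.three e he]
    norm_num
  have hge : k ≤ nu (av F e) := (hnb v v).trans (nu_mono (av_mono subset_union_left))
  have heq : nu (av F e) = k := le_antisymm hle hge
  rw [← heq]
  refine hyp_of_nu (fun g hg => h.three g (av_subset _ _ hg)) fun a b => ?_
  rw [heq, av_av]
  exact hnb a b

/-- **Barrier-free families are good.** -/
theorem good_of_no_barrier {F M : Finset (Finset V)} {k : ℕ} (hk : 2 ≤ k) (ih : Std V k)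
    (h : Hyp F (k + 1)) (hM : M ⊆ F) (hm : IsMatching M) (hc : M.card = k + 1)
    (hnb : ∀ e ∈ M, ∀ a b : V, k ≤ nu (av F (e ∪ {a, b}))) : Good F M (k + 1) := by
  classical
  refine good_step hk h.three hM hm hc (bl_nonempty h hM hm hc) fun e he => ?_
  refine ih _ (hyp_av_edge h (hM he) (hnb e he)) _ ?_ (hm.mono (erase_subset _ _)) ?_
  · intro f hf
    rw [mem_erase] at hf
    exact mem_av.2 ⟨hM hf.2, hm f hf.2 e he hf.1⟩
  · rw [card_erase_of_mem he, hc]
    rfl

/-- **Reduction of the whole theorem to families with a small barrier.** -/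
theorem std_of_barrier (S2 : ∀ H : Finset (Finset V), Hyp H 2 → H.card ≤ 56)
    (Bar : ∀ k ≥ 2, Std V k → ∀ (F M : Finset (Finset V)), Hyp F (k + 1) → M ⊆ F → IsMatching M →
      M.card = k + 1 → ∀ e ∈ M, ∀ a b : V, nu (av F (e ∪ {a, b})) < k → Good F M (k + 1)) :
    ∀ k ≥ 2, Std V k := by
  intro k hk
  induction k, hk using Nat.le_induction with
  | base => exact std_two S2
  | succ k hk ih =>
    intro F h M hM hm hc
    by_cases hb : ∀ e ∈ M, ∀ a b : V, k ≤ nu (av F (e ∪ {a, b}))
    · exact good_of_no_barrier hk ih h hM hm hc hb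
    · push Not at hb
      obtain ⟨e, he, a, b, hlt⟩ := hb
      exact Bar k hk ih F M h hM hm hc e he a b hlt

end Res46
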